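import Pool.Agent.Helper72.BQ.Defs

/-!
# MP_3dd6d4_an, BQ module Q8b: comparison of `Γ(1/p)/Γ(1-1/p)` with `p - 1`
-/

set_option autoImplicit false

open MeasureTheory Complex FourierTransform Filter Topology
open scoped ENNReal NNReal ComplexConjugate

noncomputable section

namespace Helper72.BQ.P

open Helper72.BA Helper85.BP Helper72.BQ

theorem q8b_series {x y : ℝ} (hx : 0 ≤ x) (hxy : x ≤ y) (hy : y < 1) :
    2 / 3 * (x * y ^ 3 - y * x ^ 3) ≤
      x * (Real.log (1 + y) - Real.log (1 - y)) - y * (Real.log (1 + x) - Real.log (1 - x)) := by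
  have hy0 : 0 ≤ y := hx.trans hxy
  have h1 := Real.hasSum_log_sub_log_of_abs_lt_one (x := x) (by rw [abs_of_nonneg hx]; linarith)
  have h2 := Real.hasSum_log_sub_log_of_abs_lt_one (x := y) (by rw [abs_of_nonneg hy0]; exact hy)
  have h3 := (h2.mul_left x).sub (h1.mul_left y)
  have h4 := le_hasSum h3 1 (by
    intro k _
    have h5 : x ^ (2 * k) ≤ y ^ (2 * k) := pow_le_pow_left₀ hx hxy _
    have h6 : 0 ≤ x * y * (y ^ (2 * k) - x ^ (2 * k)) :=
      mul_nonneg (mul_nonneg hx hy0) (sub_nonneg.2 h5)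
    have h7 : x * (2 * (1 / (2 * (k : ℝ) + 1)) * y ^ (2 * k + 1)) -
        y * (2 * (1 / (2 * (k : ℝ) + 1)) * x ^ (2 * k + 1)) =
        2 * (1 / (2 * (k : ℝ) + 1)) * (x * y * (y ^ (2 * k) - x ^ (2 * k))) := by
      rw [pow_succ, pow_succ]
      ring
    rw [h7]
    positivity)
  refine le_trans (le_of_eq ?_) h4
  norm_num
  ring

theorem q8b_log {a u : ℝ} (ha : 3 / 2 ≤ a) (hu : 0 ≤ u) (hu' : u ≤ 1 / 2) :
    4 / 3 * a * (u / a * (1 / (2 * a)) ^ 3 - 1 / (2 * a) * (u / a) ^ 3) ≤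
    2 * u * (Real.log (a + 1 / 2) - Real.log (a - 1 / 2)) -
      (Real.log (a + u) - Real.log (a - u)) := by
  have ha0 : 0 < a := by linarith
  have hxy : u / a ≤ 1 / (2 * a) := by
    rw [div_le_div_iff₀ ha0 (by linarith)]
    nlinarith
  have hy : 1 / (2 * a) < 1 := by
    rw [div_lt_one (by linarith)]
    linarith
  have h := q8b_series (div_nonneg hu ha0.le) hxy hy
  have e : ∀ v : ℝ, v < a → 0 ≤ v → Real.log (1 + v / a) - Real.log (1 - v / a) =
      Real.log (a + v) - Real.log (a - v) := by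
    intro v hv hv0
    have e1 : 1 + v / a = (a + v) / a := by field_simp
    have e2 : 1 - v / a = (a - v) / a := by field_simp
    rw [e1, e2, Real.log_div (by linarith) ha0.ne', Real.log_div (by linarith) ha0.ne']
    ring
  have e3 : (1 : ℝ) / (2 * a) = (1 / 2) / a := by field_simp
  have h1 := e u (by linarith) hu
  have h2 := e (1 / 2) (by linarith) (by norm_num)
  rw [← e3] at h2
  rw [h1, h2] at h
  have h3 := mul_le_mul_of_nonneg_left h (by linarith : (0:ℝ) ≤ 2 * a)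
  calc 4 / 3 * a * (u / a * (1 / (2 * a)) ^ 3 - 1 / (2 * a) * (u / a) ^ 3)
      = 2 * a * (2 / 3 * (u / a * (1 / (2 * a)) ^ 3 - 1 / (2 * a) * (u / a) ^ 3)) := by ring
    _ ≤ _ := h3
    _ = 2 * u * (Real.log (a + 1 / 2) - Real.log (a - 1 / 2)) -
      (Real.log (a + u) - Real.log (a - u)) := by
        field_simp

theorem q8b_log' {a u : ℝ} (ha : 3 / 2 ≤ a) (hu : 0 ≤ u) (hu' : u ≤ 1 / 2) :
    Real.log (a + u) - Real.log (a - u) ≤
      2 * u * (Real.log (a + 1 / 2) - Real.log (a - 1 / 2)) := by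
  have h := q8b_log ha hu hu'
  have ha0 : 0 < a := by linarith
  have h1 : 0 ≤ 4 / 3 * a * (u / a * (1 / (2 * a)) ^ 3 - 1 / (2 * a) * (u / a) ^ 3) := by
    have e : 4 / 3 * a * (u / a * (1 / (2 * a)) ^ 3 - 1 / (2 * a) * (u / a) ^ 3) =
        4 / 3 * (u * (1 - 4 * u ^ 2)) / (8 * a ^ 3) := by
      field_simp
      ring
    rw [e]
    have : 0 ≤ 1 - 4 * u ^ 2 := by nlinarith
    positivity
  linarith

theorem q8b_gamma {s : ℝ} (hs : 0 < s) (hs' : s ≤ 1 / 2) :
    4 / 81 * (1 / 2 - s) * (4 * s * (1 - s)) ≤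
      Real.log (Real.Gamma (2 - s)) - Real.log (Real.Gamma (1 + s)) := by
  have h1 := Real.BohrMollerup.tendsto_log_gamma (x := 2 - s) (by linarith)
  have h2 := Real.BohrMollerup.tendsto_log_gamma (x := 1 + s) (by linarith)
  have h3 := h1.sub h2
  have hlim : Tendsto (fun n : ℕ => (1 - 2 * s) * (-Real.log (1 + 2 / (n : ℝ))) +
      4 / 81 * (1 / 2 - s) * (4 * s * (1 - s))) atTop
      (𝓝 (4 / 81 * (1 / 2 - s) * (4 * s * (1 - s)))) := by
    have h4 : Tendsto (fun n : ℕ => 2 / (n : ℝ)) atTop (𝓝 0) :=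
      tendsto_const_div_atTop_nhds_zero_nat 2
    have h5 : Tendsto (fun n : ℕ => Real.log (1 + 2 / (n : ℝ))) atTop (𝓝 (Real.log (1 + 0))) :=
      (Real.continuousAt_log (by norm_num)).tendsto.comp (h4.const_add 1)
    rw [add_zero, Real.log_one] at h5
    have h6 := (h5.neg.const_mul (1 - 2 * s)).add_const (4 / 81 * (1 / 2 - s) * (4 * s * (1 - s)))
    simpa using h6
  refine le_of_tendsto_of_tendsto hlim h3 ?_
  filter_upwards [eventually_ge_atTop 1] with n hn
  have hn0 : (0 : ℝ) < n := by exact_mod_cast hn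
  -- the difference of the two sequences
  have hsum : ∑ m ∈ Finset.range n, (Real.log (2 - s + ((m + 1 : ℕ) : ℝ)) -
      Real.log (1 + s + ((m + 1 : ℕ) : ℝ))) ≤
      (1 - 2 * s) * (Real.log (n + 2) - Real.log 2) := by
    have h4 : ∀ m ∈ Finset.range n, Real.log (2 - s + ((m + 1 : ℕ) : ℝ)) -
        Real.log (1 + s + ((m + 1 : ℕ) : ℝ)) ≤
        (1 - 2 * s) * (Real.log (((m + 1 : ℕ) : ℝ) + 2) - Real.log ((m : ℝ) + 2)) := by
      intro m _
      have hm : (0 : ℝ) ≤ m := Nat.cast_nonneg m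
      have h5 := q8b_log' (a := (m : ℝ) + 5 / 2) (u := 1 / 2 - s) (by linarith) (by linarith)
        (by linarith)
      push_cast
      have e1 : (m : ℝ) + 5 / 2 + (1 / 2 - s) = 2 - s + ((m : ℝ) + 1) := by ring
      have e2 : (m : ℝ) + 5 / 2 - (1 / 2 - s) = 1 + s + ((m : ℝ) + 1) := by ring
      have e3 : (m : ℝ) + 5 / 2 + 1 / 2 = (m : ℝ) + 1 + 2 := by ring
      have e4 : (m : ℝ) + 5 / 2 - 1 / 2 = (m : ℝ) + 2 := by ring
      have e5 : 2 * (1 / 2 - s) = 1 - 2 * s := by ring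
      rw [e1, e2, e3, e4, e5] at h5
      exact h5
    refine (Finset.sum_le_sum h4).trans (le_of_eq ?_)
    rw [← Finset.mul_sum, Finset.sum_range_sub (fun m : ℕ => Real.log ((m : ℝ) + 2)) n]
    simp
  have h0 : Real.log (2 - s) - Real.log (1 + s) ≤
      (1 - 2 * s) * Real.log 2 - 4 / 81 * (1 / 2 - s) * (4 * s * (1 - s)) := by
    have h5 := q8b_log (a := 3 / 2) (u := 1 / 2 - s) (by norm_num) (by linarith) (by linarith)
    have e1 : (3 : ℝ) / 2 + (1 / 2 - s) = 2 - s := by ring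
    have e2 : (3 : ℝ) / 2 - (1 / 2 - s) = 1 + s := by ring
    have e3 : (3 : ℝ) / 2 + 1 / 2 = 2 := by ring
    have e4 : (3 : ℝ) / 2 - 1 / 2 = 1 := by ring
    have e5 : 2 * (1 / 2 - s) = 1 - 2 * s := by ring
    rw [e1, e2, e3, e4, e5, Real.log_one, sub_zero] at h5
    have e6 : 4 / 3 * (3 / 2) * ((1 / 2 - s) / (3 / 2) * (1 / (2 * (3 / 2))) ^ 3 -
        1 / (2 * (3 / 2)) * ((1 / 2 - s) / (3 / 2)) ^ 3) =
        4 / 81 * (1 / 2 - s) * (4 * s * (1 - s)) := by ring
    rw [e6] at h5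
    linarith
  have hlog : Real.log (1 + 2 / (n : ℝ)) = Real.log (n + 2) - Real.log n := by
    have : 1 + 2 / (n : ℝ) = ((n : ℝ) + 2) / n := by field_simp
    rw [this, Real.log_div (by positivity) hn0.ne']
  have hdiff : Real.BohrMollerup.logGammaSeq (2 - s) n - Real.BohrMollerup.logGammaSeq (1 + s) n =
      (1 - 2 * s) * Real.log n - (Real.log (2 - s) - Real.log (1 + s)) -
      ∑ m ∈ Finset.range n, (Real.log (2 - s + ((m + 1 : ℕ) : ℝ)) -
        Real.log (1 + s + ((m + 1 : ℕ) : ℝ))) := by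
    unfold Real.BohrMollerup.logGammaSeq
    rw [Finset.sum_range_succ', Finset.sum_range_succ', Finset.sum_sub_distrib]
    simp only [Nat.cast_zero, add_zero]
    ring
  rw [hdiff, hlog]
  nlinarith [hsum, h0]

/-- comparison with `p - 1` -/
theorem Ap_lt (P : ℝ) (hP : 2 < P) : ∃ ε : ℝ, 0 < ε ∧ ∀ p : ℝ, 2 ≤ p → p ≤ P →
    Ap p * Real.exp (ε * (p - 2)) ≤ p - 1 := by
  refine ⟨4 / (81 * P ^ 2), by positivity, fun p hp hpP => ?_⟩
  have hp0 : 0 < p := by linarith
  set s : ℝ := 1 / p with hs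
  have hs0 : 0 < s := by positivity
  have hs1 : s ≤ 1 / 2 := by
    rw [hs]
    exact one_div_le_one_div_of_le (by norm_num) hp
  have hps : p = 1 / s := by
    rw [hs]
    field_simp
  have hg := q8b_gamma hs0 hs1
  have hG1 : Real.Gamma (1 + s) = s * Real.Gamma s := by
    rw [add_comm, Real.Gamma_add_one hs0.ne']
  have hG2 : Real.Gamma (2 - s) = (1 - s) * Real.Gamma (1 - s) := by
    have : 2 - s = (1 - s) + 1 := by ring
    rw [this, Real.Gamma_add_one (by linarith)]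
  have hp1 : 0 < Real.Gamma s := Real.Gamma_pos_of_pos hs0
  have hp2 : 0 < Real.Gamma (1 - s) := Real.Gamma_pos_of_pos (by linarith)
  have hp3 : 0 < Real.Gamma (1 + s) := Real.Gamma_pos_of_pos (by linarith)
  have hp4 : 0 < Real.Gamma (2 - s) := Real.Gamma_pos_of_pos (by linarith)
  -- the lower bound for the exponent
  have hexp : 4 / (81 * P ^ 2) * (p - 2) ≤ 4 / 81 * (1 / 2 - s) * (4 * s * (1 - s)) := by
    have h1 : p - 2 = 2 * p * (1 / 2 - s) := by
      rw [hs]
      field_simp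
    have h2 : 1 / P ≤ s := by
      rw [hs]
      exact one_div_le_one_div_of_le hp0 hpP
    have hP0 : 0 < P := by linarith
    rw [h1]
    have h3 : 0 ≤ 1 / 2 - s := by linarith
    have h4 : 2 * p * (1 / P ^ 2) ≤ 4 * s * (1 - s) := by
      have h5 : p * (1 / P ^ 2) ≤ 1 / P := by
        rw [mul_one_div, div_le_div_iff₀ (by positivity) hP0]
        nlinarith
      nlinarith
    calc 4 / (81 * P ^ 2) * (2 * p * (1 / 2 - s)) =
        4 / 81 * (1 / 2 - s) * (2 * p * (1 / P ^ 2)) := by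
          field_simp
      _ ≤ 4 / 81 * (1 / 2 - s) * (4 * s * (1 - s)) := by
          apply mul_le_mul_of_nonneg_left h4
          positivity
  have h1 : Real.exp (4 / (81 * P ^ 2) * (p - 2)) ≤ Real.Gamma (2 - s) / Real.Gamma (1 + s) := by
    rw [← Real.log_le_log_iff (Real.exp_pos _) (by positivity), Real.log_exp,
      Real.log_div hp4.ne' hp3.ne']
    linarith
  have h2 : Ap p = Real.Gamma s / Real.Gamma (1 - s) := rfl
  rw [h2]
  calc Real.Gamma s / Real.Gamma (1 - s) * Real.exp (4 / (81 * P ^ 2) * (p - 2))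
      ≤ Real.Gamma s / Real.Gamma (1 - s) * (Real.Gamma (2 - s) / Real.Gamma (1 + s)) :=
        mul_le_mul_of_nonneg_left h1 (by positivity)
    _ = (1 - s) / s := by
        rw [hG1, hG2]
        field_simp
    _ = p - 1 := by
        rw [hs]
        field_simp

end Helper72.BQ.P
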