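import Mathlib

set_option autoImplicit false

/-! Geometries over a field, `k`-blocks and tangential `k`-blocks. -/

namespace Pool.Agent.Helper27

/-- A geometry: a finite simple matroid. (Taking `e = f` says that there are no loops, taking `e ≠ f`
that there are no parallel elements.) -/
def IsGeometry {α : Type} (M : Matroid α) : Prop :=
  M.E.Finite ∧ ∀ e ∈ M.E, ∀ f ∈ M.E, M.Indep {e, f}

/-- `v` represents `M` by a spanning set of vectors of `F^n`: a set of elements is independent in
`M` exactly when its vectors are linearly independent, and the vectors span `F^n`. For a geometry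
this says that `M` is isomorphic to the matroid on a set of points spanning `PG(n-1,F)`, and then
`n` is the rank of `M`. -/
def Represents {α F : Type} [Field F] {n : ℕ} (v : α → (Fin n → F)) (M : Matroid α) : Prop :=
  (∀ I : Set α, I ⊆ M.E → (M.Indep I ↔ LinearIndepOn F v I)) ∧
    Submodule.span F (v '' M.E) = ⊤

/-- `M` is a `k`-block over `F`: it is an `F`-representable geometry of critical exponent larger
than `k`, that is, for every `k` linear functionals on `F^n` some element of `M` lies in the common
kernel. -/
def IsBlock (F : Type) [Field F] (k : ℕ) {α : Type} (M : Matroid α) : Prop :=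
  IsGeometry M ∧ ∃ (n : ℕ) (v : α → (Fin n → F)), Represents v M ∧
    ∀ f : Fin k → Module.Dual F (Fin n → F), ∃ e ∈ M.E, ∀ i, f i (v e) = 0

/-- A tangential `k`-block over `F`: a minor-minimal `k`-block. -/
def IsTangentialBlock (F : Type) [Field F] (k : ℕ) {α : Type} (M : Matroid α) : Prop :=
  IsBlock F k M ∧ ∀ N : Matroid α, N.IsStrictMinor M → ¬ IsBlock F k N

/-- `M` is the `m`-point line `U_{2,m}` (up to isomorphism): it has `m` elements and its independent
sets are the sets of at most two elements. -/
def IsUniformLine {α : Type} (m : ℕ) (M : Matroid α) : Prop :=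
  M.E.encard = m ∧ ∀ I : Set α, I ⊆ M.E → (M.Indep I ↔ I.encard ≤ 2)

/-- `M` is isomorphic to the cycle matroid `M(K_4)` of the complete graph on four vertices: there is a
bijection from the edge set of `K_4` to the elements of `M` such that a set of edges is mapped to an
independent set exactly when these edges form a forest. -/
def IsCycleMatroidK4 {α : Type} (M : Matroid α) : Prop :=
  ∃ g : (⊤ : SimpleGraph (Fin 4)).edgeSet ≃ M.E,
    ∀ J : Set (⊤ : SimpleGraph (Fin 4)).edgeSet,
      M.Indep ((fun x => (g x : α)) '' J) ↔
        (SimpleGraph.fromEdgeSet ((fun x => (x : Sym2 (Fin 4))) '' J)).IsAcyclic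

end Pool.Agent.Helper27
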