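import Mathlib

set_option autoImplicit false

/-! Isotropic vectors of the standard Hermitian form on `F^3`, where `F` has `q^2` elements. -/

namespace Pool.Agent.Helper27

/-- The standard sesquilinear form on `F^3` attached to a ring endomorphism `s`. -/
def herm {F : Type} [Field F] (s : F →+* F) (x y : Fin 3 → F) : F :=
  x 0 * s (y 0) + x 1 * s (y 1) + x 2 * s (y 2)

section basic
variable {F : Type} [Field F] (s : F →+* F)

lemma herm_add_left (x y z : Fin 3 → F) : herm s (x + y) z = herm s x z + herm s y z := by
  simp only [herm, Pi.add_apply]; ring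

lemma herm_smul_left (a : F) (x z : Fin 3 → F) : herm s (a • x) z = a * herm s x z := by
  simp only [herm, Pi.smul_apply, smul_eq_mul]; ring

lemma herm_add_right (x y z : Fin 3 → F) : herm s z (x + y) = herm s z x + herm s z y := by
  simp only [herm, Pi.add_apply, map_add]; ring

lemma herm_smul_right (a : F) (x z : Fin 3 → F) : herm s z (a • x) = s a * herm s z x := by
  simp only [herm, Pi.smul_apply, smul_eq_mul, map_mul]; ring

lemma herm_symm (hs : ∀ a, s (s a) = a) (x y : Fin 3 → F) : s (herm s x y) = herm s y x := by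
  simp only [herm, map_add, map_mul, hs]; ring

/-- The linear functional `x ↦ h(x, z)`. -/
def hermL (z : Fin 3 → F) : (Fin 3 → F) →ₗ[F] F where
  toFun x := herm s x z
  map_add' x y := herm_add_left s x y z
  map_smul' a x := by simp [herm_smul_left]

/-- Gram determinant identity. -/
lemma gram_det (x y z : Fin 3 → F) (hlin : LinearIndependent F ![x, y, z]) :
    (Matrix.of ![![herm s x x, herm s x y, herm s x z], ![herm s y x, herm s y y, herm s y z],
      ![herm s z x, herm s z y, herm s z z]]).det ≠ 0 := by
  set A : Matrix (Fin 3) (Fin 3) F := Matrix.of ![x, y, z] with hA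
  have hdet : A.det ≠ 0 := by
    have h1 : LinearIndependent F A.row := by
      have : A.row = ![x, y, z] := by
        ext i j; fin_cases i <;> rfl
      rw [this]; exact hlin
    have := (Matrix.linearIndependent_rows_iff_isUnit (A := A)).1 h1
    exact ((Matrix.isUnit_iff_isUnit_det A).1 this).ne_zero
  have hG : (Matrix.of ![![herm s x x, herm s x y, herm s x z], ![herm s y x, herm s y y, herm s y z],
      ![herm s z x, herm s z y, herm s z z]]) = A * (s.mapMatrix A).transpose := by
    ext i j
    rw [Matrix.mul_apply, Fin.sum_univ_three]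
    fin_cases i <;> fin_cases j <;> simp [hA, herm]
  rw [hG, Matrix.det_mul, Matrix.det_transpose, ← RingHom.map_det]
  exact mul_ne_zero hdet ((map_ne_zero s).2 hdet)

/-- Three independent isotropic vectors. -/
lemma triple_ne (hs : ∀ a, s (s a) = a) (x y z : Fin 3 → F) (hlin : LinearIndependent F ![x, y, z])
    (hx : herm s x x = 0) (hy : herm s y y = 0) (hz : herm s z z = 0) :
    herm s x y * herm s y z * herm s z x + s (herm s x y * herm s y z * herm s z x) ≠ 0 := by
  have h := gram_det s x y z hlin
  rw [Matrix.det_fin_three] at h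
  simp only [Matrix.of_apply, Matrix.cons_val', Matrix.cons_val_zero, Matrix.cons_val_one,
    Matrix.cons_val, hx, hy, hz] at h
  intro h0
  apply h
  rw [map_mul, map_mul, herm_symm s hs, herm_symm s hs, herm_symm s hs] at h0
  linear_combination h0

/-- There is no O'Nan configuration. -/
lemma no_onan (hs : ∀ a, s (s a) = a) (x y z : Fin 3 → F) (hlin : LinearIndependent F ![x, y, z])
    (hx : herm s x x = 0) (hy : herm s y y = 0) (hz : herm s z z = 0)
    (a b c d e f : F) (ha : a ≠ 0) (hc : c ≠ 0) (he : e ≠ 0)
    (h1 : herm s (a • x + b • y) (a • x + b • y) = 0)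
    (h2 : herm s (c • y + d • z) (c • y + d • z) = 0)
    (h3 : herm s (e • z + f • x) (e • z + f • x) = 0)
    (hdet : a * c * e + b * d * f = 0) : False := by
  have key := triple_ne s hs x y z hlin hx hy hz
  have sx := herm_symm s hs x y
  have sy := herm_symm s hs y z
  have sz := herm_symm s hs z x
  simp only [herm_add_left, herm_add_right, herm_smul_left, herm_smul_right, hx, hy, hz,
    mul_zero, zero_add, add_zero] at h1 h2 h3
  rw [← sx] at h1
  rw [← sy] at h2
  rw [← sz] at h3
  set p := herm s x y
  set r := herm s y z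
  set t := herm s z x
  have hdet' : s a * s c * s e + s b * s d * s f = 0 := by
    have := congrArg s hdet
    simpa [map_add, map_mul] using this
  -- s1 = a * s b * p , s1 + s s1 = 0
  have e1 : a * s b * p = - (b * s a * s p) := by linear_combination h1
  have e2 : c * s d * r = - (d * s c * s r) := by linear_combination h2
  have e3 : e * s f * t = - (f * s e * s t) := by linear_combination h3
  have prod : (a * c * e) * (s b * s d * s f) * (p * r * t) =
      - ((b * d * f) * (s a * s c * s e) * (s p * s r * s t)) := by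
    calc (a * c * e) * (s b * s d * s f) * (p * r * t)
        = (a * s b * p) * (c * s d * r) * (e * s f * t) := by ring
      _ = (- (b * s a * s p)) * (- (d * s c * s r)) * (- (f * s e * s t)) := by rw [e1, e2, e3]
      _ = _ := by ring
  have hbdf : b * d * f = - (a * c * e) := by linear_combination hdet
  have hsbdf : s b * s d * s f = - (s a * s c * s e) := by linear_combination hdet'
  rw [hbdf, hsbdf] at prod
  have hne : (a * c * e) * (s a * s c * s e) ≠ 0 := by
    have h4 : s a ≠ 0 := (map_ne_zero s).2 ha
    have h5 : s c ≠ 0 := (map_ne_zero s).2 hc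
    have h6 : s e ≠ 0 := (map_ne_zero s).2 he
    positivity
  apply key
  have : (a * c * e) * (s a * s c * s e) * (p * r * t + s p * s r * s t) = 0 := by
    linear_combination - prod
  rcases mul_eq_zero.1 this with h | h
  · exact absurd h hne
  · rw [map_mul, map_mul]; exact h

/-- Two independent isotropic vectors are not orthogonal. -/
lemma herm_ne_of_indep (hs : ∀ a, s (s a) = a) (x y : Fin 3 → F)
    (hlin : LinearIndependent F ![x, y])
    (hx : herm s x x = 0) (hy : herm s y y = 0) : herm s x y ≠ 0 := by
  intro hxy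
  have hyx : herm s y x = 0 := by rw [← herm_symm s hs, hxy, map_zero]
  -- find a third vector
  obtain ⟨z, hz⟩ : ∃ z, z ∉ Submodule.span F (Set.range ![x, y]) := by
    by_contra hcon
    push Not at hcon
    have htop : Submodule.span F (Set.range ![x, y]) = ⊤ := by
      rw [eq_top_iff]; intro z _; exact hcon z
    have h1 := finrank_span_eq_card hlin
    rw [htop] at h1
    simp at h1
  have hlin3 : LinearIndependent F ![x, y, z] := by
    have h1 : LinearIndependent F (Fin.snoc (α := fun _ => Fin 3 → F) ![x, y] z) :=
      linearIndependent_finSnoc.2 ⟨hlin, hz⟩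
    have h2 : (Fin.snoc (α := fun _ => Fin 3 → F) ![x, y] z : Fin 3 → (Fin 3 → F)) = ![x, y, z] := by
      ext i j; fin_cases i <;> rfl
    rw [h2] at h1
    exact h1
  have h := gram_det s x y z hlin3
  rw [Matrix.det_fin_three] at h
  simp only [Matrix.of_apply, Matrix.cons_val', Matrix.cons_val_zero, Matrix.cons_val_one,
    Matrix.cons_val, hx, hy, hxy, hyx] at h
  apply h; ring

/-- Isotropic vectors in hyperplanes, given surjectivity of the norm. -/
lemma exists_isotropic (hs : ∀ a, s (s a) = a) (hnorm : ∀ c : F, s c = c → ∃ a, a * s a = c)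
    (f : (Fin 3 → F) →ₗ[F] F) : ∃ x : Fin 3 → F, x ≠ 0 ∧ f x = 0 ∧ herm s x x = 0 := by
  -- two independent vectors in the kernel
  obtain ⟨u, w, huw, hu, hw⟩ : ∃ u w : Fin 3 → F, LinearIndependent F ![u, w] ∧ f u = 0 ∧ f w = 0 := by
    have h1 : 2 ≤ Module.finrank F (LinearMap.ker f) := by
      have h2 := LinearMap.finrank_range_add_finrank_ker f
      have h3 : Module.finrank F (LinearMap.range f) ≤ 1 := by
        have := Submodule.finrank_le (LinearMap.range f)
        simpa using this
      simp at h2
      omega
    obtain ⟨g, hg⟩ := exists_linearIndependent_of_le_finrank (R := F) (M := LinearMap.ker f) h1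
    refine ⟨(g 0 : Fin 3 → F), (g 1 : Fin 3 → F), ?_, (g 0).2, (g 1).2⟩
    have h4 := hg.map' (LinearMap.ker f).subtype (by simp)
    have h5 : (⇑(LinearMap.ker f).subtype ∘ g) = ![(g 0 : Fin 3 → F), (g 1 : Fin 3 → F)] := by
      ext i j; fin_cases i <;> rfl
    rw [h5] at h4
    exact h4
  have hu0 : u ≠ 0 := by
    have := huw.ne_zero 0
    simpa using this
  by_cases hA : herm s u u = 0
  · exact ⟨u, hu0, hu, hA⟩
  -- orthogonalise
  set w' : Fin 3 → F := w + (-(herm s w u / herm s u u)) • u with hw'
  have hw'0 : w' ≠ 0 := by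
    intro h0
    have h1 := (LinearIndependent.pair_iff.1 huw) (-(herm s w u / herm s u u)) 1 (by
      rw [one_smul, add_comm]; exact h0)
    exact one_ne_zero h1.2
  have hfw' : f w' = 0 := by
    rw [hw', map_add, map_smul, hu, hw]; simp
  have horth : herm s w' u = 0 := by
    rw [hw', herm_add_left, herm_smul_left]
    field_simp
    ring
  have horth' : herm s u w' = 0 := by rw [← herm_symm s hs, horth, map_zero]
  clear_value w'
  have sA : s (herm s u u) = herm s u u := herm_symm s hs u u
  have sD : s (herm s w' w') = herm s w' w' := herm_symm s hs w' w'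
  obtain ⟨a, ha⟩ := hnorm (-(herm s w' w') / herm s u u) (by
    rw [map_div₀, map_neg, sA, sD])
  refine ⟨a • u + w', ?_, ?_, ?_⟩
  · intro h0
    -- then w' is a multiple of u, hence (being orthogonal to u) zero
    have h1 : herm s (a • u + w') u = 0 := by rw [h0]; simp [herm]
    rw [herm_add_left, herm_smul_left, horth, add_zero] at h1
    rcases mul_eq_zero.1 h1 with h | h
    · rw [h, zero_smul, zero_add] at h0; exact hw'0 h0
    · exact hA h
  · rw [map_add, map_smul, hu, hfw']; simp
  · rw [herm_add_left, herm_add_right, herm_add_right, herm_smul_left, herm_smul_right,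
      herm_smul_left, herm_smul_right, horth, horth']
    have h2 : a * s a * herm s u u = - herm s w' w' := by
      rw [ha]; field_simp
    linear_combination h2

end basic

section finite
variable {F : Type} [Field F] [Fintype F] (q : ℕ) (hq : Fintype.card F = q ^ 2)

include hq

/-- The involution `x ↦ x^q` of a field with `q^2` elements. -/
lemma exists_involution : ∃ s : F →+* F, (∀ a, s a = a ^ q) ∧ ∀ a, s (s a) = a := by
  classical
  obtain ⟨p, hp⟩ := CharP.exists F
  have := hp
  obtain ⟨n, hpp, hcard⟩ := FiniteField.card F p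
  have : Fact p.Prime := ⟨hpp⟩
  have hdvd : q ∣ p ^ (n : ℕ) := by
    rw [← hcard, hq, pow_two]; exact dvd_mul_right q q
  obtain ⟨k, -, hk⟩ := (Nat.dvd_prime_pow hpp).1 hdvd
  refine ⟨iterateFrobenius F p k, ?_, ?_⟩
  · intro a; rw [iterateFrobenius_def, hk]
  · intro a
    rw [iterateFrobenius_def, iterateFrobenius_def, ← hk, ← pow_mul, ← pow_two, ← hq]
    exact FiniteField.pow_card a

lemma norm_surj (s : F →+* F) (hs : ∀ a, s a = a ^ q) (c : F) (hc : s c = c) :
    ∃ a, a * s a = c := by
  classical
  by_cases hc0 : c = 0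
  · exact ⟨0, by simp [hc0]⟩
  obtain ⟨g, hg⟩ := IsCyclic.exists_generator (α := Fˣ)
  have hord : orderOf g = q ^ 2 - 1 := by
    rw [orderOf_eq_card_of_forall_mem_zpowers hg, Nat.card_eq_fintype_card, Fintype.card_units, hq]
  have hq1 : 1 < q := by
    have h1 : 1 < Fintype.card F := Fintype.one_lt_card
    rw [hq] at h1
    by_contra hle
    have : q ≤ 1 := by omega
    interval_cases q <;> simp at h1
  obtain ⟨j, hj⟩ : ∃ j : ℕ, g ^ j = Units.mk0 c hc0 := by
    have := hg (Units.mk0 c hc0)
    rw [← mem_powers_iff_mem_zpowers, Submonoid.mem_powers_iff] at this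
    exact this
  have hcq : c ^ (q - 1) = 1 := by
    rw [hs] at hc
    have h1 : c ^ (q - 1) * c = 1 * c := by
      rw [← pow_succ, Nat.sub_add_cancel hq1.le, one_mul]; exact hc
    exact mul_right_cancel₀ hc0 h1
  have h2 : g ^ (j * (q - 1)) = 1 := by
    rw [pow_mul, hj]
    ext
    simpa using hcq
  have h3 : q ^ 2 - 1 ∣ j * (q - 1) := by
    rw [← hord]; exact orderOf_dvd_of_pow_eq_one h2
  have h4 : q ^ 2 - 1 = (q + 1) * (q - 1) := by
    obtain ⟨m, rfl⟩ : ∃ m, q = m + 1 := ⟨q - 1, by omega⟩
    simp only [Nat.add_sub_cancel]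
    have : (m + 1) ^ 2 = (m + 1 + 1) * m + 1 := by ring
    omega
  rw [h4] at h3
  have h5 : q + 1 ∣ j := Nat.dvd_of_mul_dvd_mul_right (by omega) h3
  obtain ⟨i, hi⟩ := h5
  refine ⟨((g ^ i : Fˣ) : F), ?_⟩
  rw [hs, ← pow_succ', ← Units.val_pow_eq_pow_val, ← pow_mul, mul_comm, ← hi, hj]
  rfl

end finite

end Pool.Agent.Helper27
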