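import Pool.Agent.Helper27.Blocks

set_option autoImplicit false

namespace Pool.Agent.Helper27

open Set SimpleGraph

/-- an edge of `K_4` -/
def ed (i j : Fin 4) (h : i ≠ j) : (⊤ : SimpleGraph (Fin 4)).edgeSet := ⟨s(i, j), by simp [h]⟩

lemma star_acyclic (r : Fin 4) (S : Set (Sym2 (Fin 4))) (hS : ∀ e ∈ S, r ∈ e) :
    (SimpleGraph.fromEdgeSet S).IsAcyclic := by
  apply (isAcyclic_starGraph r).anti
  intro x y hxy
  rw [SimpleGraph.fromEdgeSet_adj] at hxy
  have := hS _ hxy.1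
  rw [Sym2.mem_iff] at this
  rw [starGraph_adj]
  exact ⟨hxy.2, by tauto⟩

lemma triangle_not_acyclic (i j k : Fin 4) (hij : i ≠ j) (hjk : j ≠ k) (hik : i ≠ k)
    (S : Set (Sym2 (Fin 4))) (h1 : s(i, j) ∈ S) (h2 : s(j, k) ∈ S) (h3 : s(i, k) ∈ S) :
    ¬ (SimpleGraph.fromEdgeSet S).IsAcyclic := by
  intro h
  have h4 := h.cliqueFree (n := 3) le_rfl
  apply h4 {i, j, k}
  rw [is3Clique_triple_iff]
  simp only [SimpleGraph.fromEdgeSet_adj]
  exact ⟨⟨h1, hij⟩, ⟨h3, hik⟩, ⟨h2, hjk⟩⟩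

lemma k4_data {α : Type} (N : Matroid α) (h : IsCycleMatroidK4 N) :
    ∃ a b c d e f : α, (a ∈ N.E ∧ b ∈ N.E ∧ c ∈ N.E ∧ d ∈ N.E ∧ e ∈ N.E ∧ f ∈ N.E) ∧
      (a ≠ b ∧ a ≠ c ∧ b ≠ c ∧ a ≠ d ∧ b ≠ d ∧ b ≠ e ∧ c ≠ e ∧ c ≠ f ∧ a ≠ f ∧ d ≠ e ∧ d ≠ f ∧ e ≠ f) ∧
      N.Indep {a, b, c} ∧ ¬ N.Indep {a, b, d} ∧ ¬ N.Indep {b, c, e} ∧ ¬ N.Indep {a, c, f} ∧
      ¬ N.Indep {d, e, f} := by
  obtain ⟨g, hg⟩ := h
  have h01 : (0 : Fin 4) ≠ 1 := by decide
  have h02 : (0 : Fin 4) ≠ 2 := by decide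
  have h03 : (0 : Fin 4) ≠ 3 := by decide
  have h12 : (1 : Fin 4) ≠ 2 := by decide
  have h23 : (2 : Fin 4) ≠ 3 := by decide
  have h13 : (1 : Fin 4) ≠ 3 := by decide
  have hinj : ∀ x y, (g x : α) = g y → x = y := fun x y hxy => g.injective (Subtype.ext hxy)
  have hne : ∀ x y : (⊤ : SimpleGraph (Fin 4)).edgeSet, (x : Sym2 (Fin 4)) ≠ y → (g x : α) ≠ g y :=
    fun x y hxy hh => hxy (by rw [hinj x y hh])
  refine ⟨g (ed 0 1 h01), g (ed 0 2 h02), g (ed 0 3 h03), g (ed 1 2 h12), g (ed 2 3 h23),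
    g (ed 1 3 h13), ⟨Subtype.coe_prop _, Subtype.coe_prop _, Subtype.coe_prop _,
    Subtype.coe_prop _, Subtype.coe_prop _, Subtype.coe_prop _⟩, ?_, ?_, ?_, ?_, ?_, ?_⟩
  · refine ⟨?_, ?_, ?_, ?_, ?_, ?_, ?_, ?_, ?_, ?_, ?_, ?_⟩ <;>
      exact hne _ _ (by simp only [ed]; decide)
  · have := (hg {ed 0 1 h01, ed 0 2 h02, ed 0 3 h03}).2 (by
      apply star_acyclic 0
      intro e he
      simp only [image_insert_eq, image_singleton, mem_insert_iff, mem_singleton_iff, ed] at he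
      rcases he with rfl | rfl | rfl <;> simp)
    simpa only [image_insert_eq, image_singleton] using this
  · have := (hg {ed 0 1 h01, ed 0 2 h02, ed 1 2 h12}).not.2
      (triangle_not_acyclic 0 1 2 (by decide) (by decide) (by decide) _
        (by simp [image_insert_eq, ed]) (by simp [image_insert_eq, ed]) (by simp [image_insert_eq, ed]))
    simpa only [image_insert_eq, image_singleton] using this
  · have := (hg {ed 0 2 h02, ed 0 3 h03, ed 2 3 h23}).not.2
      (triangle_not_acyclic 0 2 3 (by decide) (by decide) (by decide) _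
        (by simp [image_insert_eq, ed]) (by simp [image_insert_eq, ed]) (by simp [image_insert_eq, ed]))
    simpa only [image_insert_eq, image_singleton] using this
  · have := (hg {ed 0 1 h01, ed 0 3 h03, ed 1 3 h13}).not.2
      (triangle_not_acyclic 0 1 3 (by decide) (by decide) (by decide) _
        (by simp [image_insert_eq, ed]) (by simp [image_insert_eq, ed]) (by simp [image_insert_eq, ed]))
    simpa only [image_insert_eq, image_singleton] using this
  · have := (hg {ed 1 2 h12, ed 2 3 h23, ed 1 3 h13}).not.2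
      (triangle_not_acyclic 1 2 3 (by decide) (by decide) (by decide) _
        (by simp [image_insert_eq, ed]) (by simp [image_insert_eq, ed]) (by simp [image_insert_eq, ed]))
    simpa only [image_insert_eq, image_singleton] using this

end Pool.Agent.Helper27
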