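import Pool.Agent.Helper27.Blocks
import Pool.Agent.Helper27.Hermitian
import Pool.Agent.Helper27.K4Data

set_option autoImplicit false

namespace Pool.Agent.Helper27

open Set

/-- The matroid on a finite set `E` given by linear independence of the vectors `v e`. -/
noncomputable def linMatroid {α F V : Type} [Field F] [AddCommGroup V] [Module F V] (v : α → V)
    (E : Set α) (hE : E.Finite) : Matroid α :=
  (IndepMatroid.ofFinite hE (fun I => I ⊆ E ∧ LinearIndepOn F v I)
    ⟨empty_subset _, linearIndepOn_empty F v⟩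
    (fun _ _ hJ hIJ => ⟨hIJ.trans hJ.1, hJ.2.mono hIJ⟩)
    (by
      intro I J hI hJ hlt
      by_contra hcon
      push Not at hcon
      have hIf : I.Finite := hE.subset hI.1
      have hJf : J.Finite := hE.subset hJ.1
      have hsub : Submodule.span F (v '' J) ≤ Submodule.span F (v '' I) := by
        rw [Submodule.span_le]
        rintro _ ⟨e, he, rfl⟩
        by_contra hne
        have heI : e ∉ I := fun h => hne (Submodule.subset_span ⟨e, h, rfl⟩)
        exact hcon e he heI (insert_subset (hJ.1 he) hI.1) (hI.2.insert hne)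
      have hfin : ∀ K : Set α, K.Finite → LinearIndepOn F v K →
          Module.finrank F (Submodule.span F (v '' K)) = K.ncard := by
        intro K hK hlin
        have := hK.fintype
        have h1 := finrank_span_eq_card (R := F) (b := fun x : K => v x) hlin
        rw [← image_eq_range] at h1
        rw [h1, Set.ncard_eq_toFinset_card', Set.toFinset_card]
      have hfg : FiniteDimensional F (Submodule.span F (v '' I)) :=
        FiniteDimensional.span_of_finite F (hIf.image v)
      have h2 := Submodule.finrank_mono hsub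
      rw [hfin I hIf hI.2, hfin J hJf hJ.2] at h2
      omega)
    (fun _ hI => hI.1)).matroid

section
variable {α F V : Type} [Field F] [AddCommGroup V] [Module F V] (v : α → V)
    (E : Set α) (hE : E.Finite)

@[simp] lemma linMatroid_E : (linMatroid (F := F) v E hE).E = E := rfl

@[simp] lemma linMatroid_indep (I : Set α) :
    (linMatroid (F := F) v E hE).Indep I ↔ I ⊆ E ∧ LinearIndepOn F v I := by
  simp [linMatroid]

omit hE in
lemma linIndepOn_pair (a b : α) (hab : a ≠ b) :
    LinearIndepOn F v {a, b} ↔ LinearIndependent F ![v a, v b] := by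
  have hinj : Function.Injective ![a, b] := by
    intro i j hij; fin_cases i <;> fin_cases j <;> simp_all
  have h := linearIndepOn_range_iff (R := F) hinj v
  have h1 : range ![a, b] = {a, b} := by simp [pair_comm]
  have h2 : v ∘ ![a, b] = ![v a, v b] := by ext i; fin_cases i <;> rfl
  rw [h1, h2] at h
  exact h

omit hE in
lemma linIndepOn_triple (a b c : α) (hab : a ≠ b) (hac : a ≠ c) (hbc : b ≠ c) :
    LinearIndepOn F v {a, b, c} ↔ LinearIndependent F ![v a, v b, v c] := by
  have hinj : Function.Injective ![a, b, c] := by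
    intro i j hij; fin_cases i <;> fin_cases j <;> simp_all
  have h := linearIndepOn_range_iff (R := F) hinj v
  have h1 : range ![a, b, c] = {a, b, c} := by
    ext x; simp [eq_comm]; tauto
  have h2 : v ∘ ![a, b, c] = ![v a, v b, v c] := by ext i; fin_cases i <;> rfl
  rw [h1, h2] at h
  exact h

end

/-- Points of the projective plane. -/
abbrev PP (F : Type) [Field F] := Projectivization F (Fin 3 → F)

instance PP_finite (F : Type) [Field F] [Finite F] : Finite (PP F) := by
  unfold PP Projectivization
  infer_instance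

section
variable {F : Type} [Field F] [Finite F] (s : F →+* F)

/-- Isotropic points. -/
def unitalSet : Set (PP F) := {P | herm s P.rep P.rep = 0}

/-- The Hermitian unital as a matroid. -/
noncomputable def unital : Matroid (PP F) :=
  linMatroid (F := F) (fun P : PP F => P.rep) (unitalSet s) (Set.toFinite _)

@[simp] lemma unital_E : (unital s).E = unitalSet s := rfl

lemma unital_indep (I : Set (PP F)) :
    (unital s).Indep I ↔ I ⊆ unitalSet s ∧ LinearIndepOn F (fun P : PP F => P.rep) I := by
  simp [unital]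

omit [Finite F] in
lemma mem_unital {P : PP F} : P ∈ unitalSet s ↔ herm s P.rep P.rep = 0 := Iff.rfl

omit [Finite F] in
lemma mk_mem_unital {x : Fin 3 → F} (hx : x ≠ 0) (h : herm s x x = 0) :
    Projectivization.mk F x hx ∈ unitalSet s := by
  obtain ⟨a, ha⟩ := Projectivization.exists_smul_eq_mk_rep F x hx
  rw [mem_unital, ← ha, Units.smul_def, herm_smul_left, herm_smul_right, h]
  ring

omit [Finite F] in
lemma pair_indep {P Q : PP F} (h : P ≠ Q) : LinearIndependent F ![P.rep, Q.rep] :=
  Projectivization.linearIndependent_pair_iff_ne.2 h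

lemma unital_geometry : IsGeometry (unital s) := by
  refine ⟨Set.toFinite _, ?_⟩
  intro P hP Q hQ
  rw [unital_indep]
  refine ⟨by rintro x (rfl | rfl) <;> assumption, ?_⟩
  by_cases h : P = Q
  · subst h
    rw [pair_eq_singleton]
    exact LinearIndepOn.singleton P.rep_nonzero
  · rw [linIndepOn_pair _ _ _ h]
    exact pair_indep h

omit [Finite F] in
lemma rep_mem_of_isotropic (W : Submodule F (Fin 3 → F))
    (hW : Submodule.span F ((fun P : PP F => P.rep) '' unitalSet s) ≤ W)
    {x : Fin 3 → F} (hx : x ≠ 0) (h : herm s x x = 0) : x ∈ W := by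
  obtain ⟨a, ha⟩ := Projectivization.exists_smul_eq_mk_rep F x hx
  have h1 : (Projectivization.mk F x hx).rep ∈ W :=
    hW (Submodule.subset_span ⟨_, mk_mem_unital s hx h, rfl⟩)
  have h2 : x = (a⁻¹ : Fˣ) • (Projectivization.mk F x hx).rep := by
    rw [← ha, inv_smul_smul]
  rw [h2]
  exact W.smul_mem _ h1

omit [Finite F] in
lemma unital_span (hs : ∀ a, s (s a) = a) (hnorm : ∀ c : F, s c = c → ∃ a, a * s a = c)
    (hne : ∃ x, s x ≠ x) :
    Submodule.span F ((fun P : PP F => P.rep) '' unitalSet s) = ⊤ := by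
  set W := Submodule.span F ((fun P : PP F => P.rep) '' unitalSet s) with hW
  obtain ⟨a, ha⟩ := hnorm (-1) (by simp)
  obtain ⟨x, hx⟩ := hne
  have hx0 : x ≠ 0 := by rintro rfl; simp at hx
  have hsx0 : s x ≠ 0 := (map_ne_zero s).2 hx0
  set u : F := x / s x with hu
  have hu1 : u * s u = 1 := by
    rw [hu, map_div₀, hs]; field_simp
  have hu2 : u ≠ 1 := by
    intro h; rw [hu, div_eq_one_iff_eq hsx0] at h; exact hx h.symm
  have ha0 : a ≠ 0 := by
    rintro rfl; simp at ha
  have v1 : (![1, a, 0] : Fin 3 → F) ∈ W := rep_mem_of_isotropic s W hW.symm.le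
    (by intro h; simpa using congrFun h 0) (by simp [herm, ha])
  have v2 : (![1, u * a, 0] : Fin 3 → F) ∈ W := rep_mem_of_isotropic s W hW.symm.le
    (by intro h; simpa using congrFun h 0) (by
      simp only [herm, Matrix.cons_val_zero, Matrix.cons_val_one, Matrix.cons_val, map_mul, map_one, map_zero]
      linear_combination ha + a * s a * hu1)
  have v3 : (![0, a, 1] : Fin 3 → F) ∈ W := rep_mem_of_isotropic s W hW.symm.le
    (by intro h; simpa using congrFun h 2) (by simp [herm, ha])
  have w1 : (![0, 1, 0] : Fin 3 → F) ∈ W := by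
    have h1 := W.smul_mem ((1 - u) * a)⁻¹ (W.sub_mem v1 v2)
    have h2 : ((1 - u) * a)⁻¹ • ((![1, a, 0] : Fin 3 → F) - ![1, u * a, 0]) = ![0, 1, 0] := by
      have h3 : (1 - u) ≠ 0 := sub_ne_zero.2 (Ne.symm hu2)
      ext i; fin_cases i
      · simp
      · simp only [Fin.mk_one, Pi.smul_apply, Pi.sub_apply, Matrix.cons_val_one, smul_eq_mul,
          Matrix.cons_val_zero]
        field_simp
      · simp
    rw [h2] at h1; exact h1
  have w0 : (![1, 0, 0] : Fin 3 → F) ∈ W := by
    have h1 := W.sub_mem v1 (W.smul_mem a w1)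
    have h2 : (![1, a, 0] : Fin 3 → F) - a • ![0, 1, 0] = ![1, 0, 0] := by
      ext i; fin_cases i <;> simp
    rw [h2] at h1; exact h1
  have w2 : (![0, 0, 1] : Fin 3 → F) ∈ W := by
    have h1 := W.sub_mem v3 (W.smul_mem a w1)
    have h2 : (![0, a, 1] : Fin 3 → F) - a • ![0, 1, 0] = ![0, 0, 1] := by
      ext i; fin_cases i <;> simp
    rw [h2] at h1; exact h1
  rw [eq_top_iff]
  intro y _
  have h3 : y = y 0 • ![1, 0, 0] + y 1 • ![0, 1, 0] + y 2 • ![0, 0, 1] := by
    ext i; fin_cases i <;> simp
  rw [h3]
  exact W.add_mem (W.add_mem (W.smul_mem _ w0) (W.smul_mem _ w1)) (W.smul_mem _ w2)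

lemma unital_block (hs : ∀ a, s (s a) = a) (hnorm : ∀ c : F, s c = c → ∃ a, a * s a = c)
    (hne : ∃ x, s x ≠ x) : IsBlock F 1 (unital s) := by
  refine ⟨unital_geometry s, 3, fun P => P.rep, ⟨?_, unital_span s hs hnorm hne⟩, ?_⟩
  · intro I hI
    rw [unital_indep]
    exact ⟨fun h => h.2, fun h => ⟨hI, h⟩⟩
  · intro f
    obtain ⟨x, hx0, hfx, hx⟩ := exists_isotropic s hs hnorm (f 0)
    refine ⟨Projectivization.mk F x hx0, mk_mem_unital s hx0 hx, ?_⟩
    intro i
    obtain ⟨a, ha⟩ := Projectivization.exists_smul_eq_mk_rep F x hx0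
    have hi : i = 0 := Subsingleton.elim _ _
    subst hi
    show f 0 (Projectivization.mk F x hx0).rep = 0
    rw [← ha, Units.smul_def, map_smul, hfx, smul_zero]

end

/-- Structure of minors in terms of independent sets. -/
lemma minor_data {α : Type} (M N : Matroid α) (h : N.IsMinor M) :
    ∃ B, M.Indep B ∧ Disjoint B N.E ∧ N.E ⊆ M.E ∧ ∀ I ⊆ N.E, (N.Indep I ↔ M.Indep (I ∪ B)) := by
  obtain ⟨C, D, hC, hD, hCD, rfl⟩ := h.exists_eq_contract_delete_disjoint
  obtain ⟨B, hB⟩ := M.exists_isBasis C hC
  refine ⟨B, hB.indep, ?_, h.subset, ?_⟩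
  · rw [Matroid.delete_ground, Matroid.contract_ground]
    exact (disjoint_sdiff_right.mono_left hB.subset).mono_right sdiff_subset
  · intro I hI
    rw [Matroid.delete_ground, Matroid.contract_ground] at hI
    rw [Matroid.delete_indep_iff, hB.contract_indep_iff]
    have h1 : Disjoint C I := by
      rw [disjoint_comm]
      exact disjoint_left.2 fun x hx hxC => (hI hx).1.2 hxC
    have h2 : Disjoint I D := disjoint_left.2 fun x hx hxD => (hI hx).2 hxD
    simp [h1, h2]

end Pool.Agent.Helper27
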