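import Pool.Agent.Helper27.Unital

set_option autoImplicit false

namespace Pool.Agent.Helper27

open Set

section
variable {F : Type} [Field F] [Fintype F] (s : F →+* F)

omit [Field F] in
lemma encard_le_card {α : Type} (S : Set α) (f : α → F) (hf : InjOn f S) :
    S.encard ≤ Fintype.card F := by
  have h1 : S.encard ≤ (univ : Set F).encard :=
    encard_le_encard_of_injOn (fun x _ => mem_univ (f x)) hf
  have h2 : (univ : Set F).encard = (Fintype.card F : ℕ∞) := by
    rw [encard_univ, ENat.card_eq_coe_fintype_card]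
  rwa [h2] at h1

omit [Fintype F] in
lemma mem_span_pair' {x y z : Fin 3 → F} (h1 : LinearIndependent F ![x, y])
    (h2 : ¬ LinearIndependent F ![x, y, z]) : ∃ a b : F, z = a • x + b • y := by
  by_contra hcon
  push Not at hcon
  apply h2
  have h3 : z ∉ Submodule.span F (Set.range ![x, y]) := by
    intro hz
    have h4 : Set.range ![x, y] = {x, y} := by simp [pair_comm]
    rw [h4, Submodule.mem_span_pair] at hz
    obtain ⟨a, b, hab⟩ := hz
    exact hcon a b hab.symm
  have h5 : LinearIndependent F (Fin.snoc (α := fun _ => Fin 3 → F) ![x, y] z) :=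
    linearIndependent_finSnoc.2 ⟨h1, h3⟩
  have h6 : (Fin.snoc (α := fun _ => Fin 3 → F) ![x, y] z : Fin 3 → (Fin 3 → F)) = ![x, y, z] := by
    ext i j; fin_cases i <;> rfl
  rw [h6] at h5
  exact h5

/-- no long line as a restriction -/
lemma no_line_restriction (hs : ∀ a, s (s a) = a) (htr : ∃ t, t + s t ≠ 0)
    (S : Set (PP F)) (hS : S ⊆ unitalSet s) (a b : PP F) (ha : a ∈ S) (hb : b ∈ S) (hab : a ≠ b)
    (h3 : ∀ x ∈ S, x ≠ a → x ≠ b → ¬ LinearIndependent F ![a.rep, b.rep, x.rep]) :
    S.encard ≤ Fintype.card F := by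
  classical
  have hli := pair_indep hab
  have haa : herm s a.rep a.rep = 0 := hS ha
  have hbb : herm s b.rep b.rep = 0 := hS hb
  have hne : herm s a.rep b.rep ≠ 0 := herm_ne_of_indep s hs _ _ hli haa hbb
  have hne' : herm s b.rep a.rep ≠ 0 := by
    rw [← herm_symm s hs]; exact (map_ne_zero s).2 hne
  obtain ⟨t0, ht0⟩ := htr
  set t : F := t0 / herm s a.rep b.rep with ht
  -- coordinates
  have hco : ∀ x ∈ S, ∃ c d : F, x.rep = c • a.rep + d • b.rep := by
    intro x hx
    by_cases hxa : x = a
    · exact ⟨1, 0, by rw [hxa]; simp⟩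
    by_cases hxb : x = b
    · exact ⟨0, 1, by rw [hxb]; simp⟩
    exact mem_span_pair' hli (h3 x hx hxa hxb)
  obtain ⟨c, d, hcd⟩ : ∃ c d : PP F → F, ∀ x ∈ S, x.rep = c x • a.rep + d x • b.rep := by
    refine ⟨fun x => if hx : x ∈ S then (hco x hx).choose else 0,
      fun x => if hx : x ∈ S then (hco x hx).choose_spec.choose else 0, fun x hx => ?_⟩
    simp only [hx, dif_pos]
    exact (hco x hx).choose_spec.choose_spec
  have hden : ∀ x ∈ S, c x - t * d x ≠ 0 := by
    intro x hx h0
    have h1 : herm s x.rep x.rep = 0 := hS hx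
    have h2 : c x = t * d x := by linear_combination h0
    rw [hcd x hx, h2] at h1
    simp only [herm_add_left, herm_add_right, herm_smul_left, herm_smul_right, haa, hbb] at h1
    rw [← herm_symm s hs a.rep b.rep, map_mul] at h1
    have h4 : t * herm s a.rep b.rep = t0 := by rw [ht]; field_simp
    have h5 : s t * s (herm s a.rep b.rep) = s t0 := by rw [← map_mul, h4]
    have h6 : d x * s (d x) * (t0 + s t0) = 0 := by
      linear_combination h1 - d x * s (d x) * h4 - d x * s (d x) * h5
    rcases mul_eq_zero.1 h6 with h7 | h7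
    · have h8 : d x = 0 := by
        rcases mul_eq_zero.1 h7 with h | h
        · exact h
        · exact (map_eq_zero s).1 h
      apply x.rep_nonzero
      rw [hcd x hx, h2, h8]; simp
    · exact ht0 h7
  let g : PP F → F := fun x => d x / (c x - t * d x)
  suffices hg : InjOn g S from encard_le_card S g hg
  intro x hx y hy hxy
  change d x / (c x - t * d x) = d y / (c y - t * d y) at hxy
  by_contra hne2
  have h1 : LinearIndependent F ![x.rep, y.rep] := pair_indep hne2
  rw [LinearIndependent.pair_iff] at h1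
  rw [div_eq_div_iff (hden x hx) (hden y hy)] at hxy
  have h2 : d x * c y = d y * c x := by linear_combination hxy
  have hxi : ∀ i, x.rep i = c x * a.rep i + d x * b.rep i := fun i => by
    have := congrFun (hcd x hx) i; simpa using this
  have hyi : ∀ i, y.rep i = c y * a.rep i + d y * b.rep i := fun i => by
    have := congrFun (hcd y hy) i; simpa using this
  have h3' := h1 (d y) (-(d x)) (by
    ext i
    simp only [Pi.add_apply, Pi.smul_apply, smul_eq_mul, Pi.zero_apply]
    rw [hxi, hyi]
    linear_combination (-(a.rep i)) * h2)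
  have h4' := h1 (c y) (-(c x)) (by
    ext i
    simp only [Pi.add_apply, Pi.smul_apply, smul_eq_mul, Pi.zero_apply]
    rw [hxi, hyi]
    linear_combination (b.rep i) * h2)
  apply x.rep_nonzero
  rw [hcd x hx]
  have h5 : d x = 0 := by have := h3'.2; simpa using this
  have h6 : c x = 0 := by have := h4'.2; simpa using this
  rw [h5, h6]; simp

/-- no long line after contracting a point -/
lemma no_line_contraction (hs : ∀ a, s (s a) = a)
    (S : Set (PP F)) (hS : S ⊆ unitalSet s) (c : PP F) (hc : c ∈ unitalSet s) (hcS : c ∉ S)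
    (h3 : ∀ x ∈ S, ∀ y ∈ S, x ≠ y → LinearIndependent F ![x.rep, y.rep, c.rep]) :
    S.encard ≤ Fintype.card F := by
  classical
  by_cases hsub : S.Subsingleton
  · have h1 : S.encard ≤ 1 := encard_le_one_iff_subsingleton.2 hsub
    refine h1.trans ?_
    exact_mod_cast Fintype.card_pos (α := F)
  rw [not_subsingleton_iff] at hsub
  obtain ⟨a, ha, b, hb, hab⟩ := hsub
  have hcc : herm s c.rep c.rep = 0 := hc
  have hphi : ∀ x ∈ S, herm s x.rep c.rep ≠ 0 := by
    intro x hx
    have hxc : x ≠ c := fun h => hcS (h ▸ hx)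
    exact herm_ne_of_indep s hs _ _ (pair_indep hxc) (hS hx) hcc
  set bb := basisOfLinearIndependentOfCardEqFinrank (h3 a ha b hb hab) (by simp) with hbb
  have hb0 : bb 0 = a.rep := by rw [hbb]; simp
  have hb1 : bb 1 = b.rep := by rw [hbb]; simp
  have hb2 : bb 2 = c.rep := by rw [hbb]; simp
  have hexp : ∀ v : Fin 3 → F, v = bb.repr v 0 • a.rep + bb.repr v 1 • b.rep + bb.repr v 2 • c.rep := by
    intro v
    have := bb.sum_repr v
    rw [Fin.sum_univ_three, hb0, hb1, hb2] at this
    exact this.symm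
  have hphi2 : ∀ v : Fin 3 → F, herm s v c.rep =
      bb.repr v 0 * herm s a.rep c.rep + bb.repr v 1 * herm s b.rep c.rep := by
    intro v
    conv_lhs => rw [hexp v]
    simp only [herm_add_left, herm_smul_left, hcc]; ring
  refine encard_le_card (F := F) (α := PP F) S (fun x : PP F => bb.repr x.rep 1 / herm s x.rep c.rep) ?_
  intro x hx y hy hxy
  by_contra hne2
  simp only at hxy
  rw [div_eq_div_iff (hphi x hx) (hphi y hy)] at hxy
  have hli := h3 x hx y hy hne2
  set w : Fin 3 → F := herm s y.rep c.rep • x.rep - herm s x.rep c.rep • y.rep with hw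
  have hw1 : bb.repr w 1 = 0 := by
    rw [hw, map_sub, map_smul, map_smul]
    simp only [Finsupp.coe_sub, Finsupp.coe_smul, Pi.sub_apply, Pi.smul_apply, smul_eq_mul]
    linear_combination hxy
  have hw0 : bb.repr w 0 = 0 := by
    have h1 : herm s w c.rep = 0 := by
      have h2 := (hermL s c.rep).map_sub (herm s y.rep c.rep • x.rep) (herm s x.rep c.rep • y.rep)
      have h3 : herm s w c.rep = herm s (herm s y.rep c.rep • x.rep) c.rep -
          herm s (herm s x.rep c.rep • y.rep) c.rep := h2
      rw [h3, herm_smul_left, herm_smul_left]; ring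
    rw [hphi2, hw1, zero_mul, add_zero] at h1
    rcases mul_eq_zero.1 h1 with h | h
    · exact h
    · exact absurd h (hphi a ha)
  have hw2 : w = bb.repr w 2 • c.rep := by
    conv_lhs => rw [hexp w]
    rw [hw0, hw1]; simp
  have h5 := Fintype.linearIndependent_iff.1 hli ![herm s y.rep c.rep, -(herm s x.rep c.rep), -(bb.repr w 2)] (by
    rw [Fin.sum_univ_three]
    simp only [Matrix.cons_val_zero, Matrix.cons_val_one, Matrix.cons_val]
    have h6 : herm s y.rep c.rep • x.rep + -herm s x.rep c.rep • y.rep = w := by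
      rw [hw]; simp [sub_eq_add_neg]
    rw [h6, neg_smul, ← hw2]; simp) 0
  exact hphi y hy (by simpa using h5)

omit [Fintype F] in
lemma encard_le_three {S : Set (PP F)} (h : LinearIndepOn F (fun P : PP F => P.rep) S) :
    S.encard ≤ 3 := by
  have h1 := h.encard_le_toENat_rank
  simpa using h1

omit [Field F] [Fintype F] in
lemma pair_encard_le {α : Type} (a b : α) : ({a, b} : Set α).encard ≤ 2 := by
  by_cases h : a = b
  · subst h; simp
  · rw [encard_pair h]

lemma unital_no_line (hs : ∀ a, s (s a) = a) (htr : ∃ t, t + s t ≠ 0)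
    (N : Matroid (PP F)) (hN : N.IsMinor (unital s)) :
    ¬ IsUniformLine (Fintype.card F + 1) N := by
  classical
  rintro ⟨hcard, hind⟩
  obtain ⟨B, hB, hBN, hNE, hBI⟩ := minor_data _ _ hN
  rw [unital_E] at hNE
  have hlt : (Fintype.card F : ℕ∞) < N.E.encard := by
    rw [hcard]; exact_mod_cast Nat.lt_succ_self _
  have h2 : 1 < N.E.encard := by
    refine lt_of_le_of_lt ?_ hlt
    exact_mod_cast Fintype.card_pos (α := F)
  obtain ⟨a, b, ha, hb, hab⟩ := one_lt_encard_iff.1 h2
  have hpair : ({a, b} : Set (PP F)) ⊆ N.E := by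
    rintro x (rfl | rfl) <;> assumption
  have h3 := (hBI _ hpair).1 ((hind _ hpair).2 (pair_encard_le a b))
  rw [unital_indep] at h3
  have h4 := encard_le_three h3.2
  have hdisj : Disjoint ({a, b} : Set (PP F)) B := (hBN.mono_right hpair).symm
  rw [encard_union_eq hdisj, encard_pair hab] at h4
  have h5 : B.encard ≤ 1 := by
    have h6 : (2 : ℕ∞) + B.encard ≤ 2 + 1 := h4
    exact (ENat.add_le_add_iff_left (by simp)).1 h6
  rcases encard_le_one_iff_eq.1 h5 with rfl | ⟨c, rfl⟩
  · -- restriction
    refine absurd (no_line_restriction s hs htr N.E hNE a b ha hb hab ?_) (not_le.2 hlt)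
    intro x hx hxa hxb hli
    rw [← linIndepOn_triple (fun P : PP F => P.rep) a b x hab (Ne.symm hxa) (Ne.symm hxb)] at hli
    have hsub : ({a, b, x} : Set (PP F)) ⊆ N.E := by
      rintro y (rfl | rfl | rfl) <;> assumption
    have h7 : N.Indep {a, b, x} := by
      rw [hBI _ hsub, union_empty, unital_indep]
      exact ⟨hsub.trans hNE, hli⟩
    have h8 := (hind _ hsub).1 h7
    have h9 : ({a, b, x} : Set (PP F)).encard = 3 := by
      rw [encard_eq_three]; exact ⟨a, b, x, hab, Ne.symm hxa, Ne.symm hxb, rfl⟩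
    rw [h9] at h8
    exact absurd h8 (by decide)
  · -- contraction of one point
    have hcE : c ∈ unitalSet s := by
      have := hB.subset_ground
      rw [unital_E] at this
      exact this (mem_singleton c)
    have hcN : c ∉ N.E := fun h => disjoint_left.1 hBN (mem_singleton c) h
    refine absurd (no_line_contraction s hs N.E hNE c hcE hcN ?_) (not_le.2 hlt)
    intro x hx y hy hxy
    have hsub : ({x, y} : Set (PP F)) ⊆ N.E := by
      rintro z (rfl | rfl) <;> assumption
    have h7 := (hBI _ hsub).1 ((hind _ hsub).2 (pair_encard_le x y))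
    rw [unital_indep] at h7
    have hxc : x ≠ c := fun h => hcN (h ▸ hx)
    have hyc : y ≠ c := fun h => hcN (h ▸ hy)
    have h8 : ({x, y} ∪ {c} : Set (PP F)) = {x, y, c} := by
      ext z; simp; tauto
    rw [h8, linIndepOn_triple (fun P : PP F => P.rep) x y c hxy hxc hyc] at h7
    exact h7.2

omit [Fintype F] in
lemma coeff_ne {x y : PP F} {z : PP F} {a b : F} (hzx : z ≠ x) (hzy : z ≠ y)
    (h : z.rep = a • x.rep + b • y.rep) : a ≠ 0 ∧ b ≠ 0 := by
  constructor
  · rintro rfl
    have h1 : LinearIndependent F ![z.rep, y.rep] := pair_indep hzy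
    rw [LinearIndependent.pair_iff] at h1
    have h2 := h1 1 (-b) (by rw [h]; simp)
    exact one_ne_zero h2.1
  · rintro rfl
    have h1 : LinearIndependent F ![z.rep, x.rep] := pair_indep hzx
    rw [LinearIndependent.pair_iff] at h1
    have h2 := h1 1 (-a) (by rw [h]; simp)
    exact one_ne_zero h2.1

lemma unital_no_K4 (hs : ∀ a, s (s a) = a)
    (N : Matroid (PP F)) (hN : N.IsMinor (unital s)) : ¬ IsCycleMatroidK4 N := by
  classical
  intro hK
  obtain ⟨B, hB, hBN, hNE, hBI⟩ := minor_data _ _ hN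
  rw [unital_E] at hNE
  obtain ⟨x, y, z, p, r, t, ⟨hx, hy, hz, hp, hr, ht⟩,
    ⟨hxy, hxz, hyz, hxp, hyp, hyr, hzr, hzt, hxt, hpr, hpt, hrt⟩, h1, h2, h3, h4, h5⟩ := k4_data N hK
  have sub3 : ∀ {a b c : PP F}, a ∈ N.E → b ∈ N.E → c ∈ N.E → ({a, b, c} : Set (PP F)) ⊆ N.E := by
    rintro a b c ha hb hc w (rfl | rfl | rfl) <;> assumption
  have hB0 : B = ∅ := by
    have h6 := (hBI _ (sub3 hx hy hz)).1 h1
    rw [unital_indep] at h6
    have h7 := encard_le_three h6.2
    have hdisj : Disjoint ({x, y, z} : Set (PP F)) B := (hBN.mono_right (sub3 hx hy hz)).symm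
    have h8 : ({x, y, z} : Set (PP F)).encard = 3 := by
      rw [encard_eq_three]; exact ⟨x, y, z, hxy, hxz, hyz, rfl⟩
    rw [encard_union_eq hdisj, h8] at h7
    have h9 : B.encard ≤ 0 := by
      have h6 : (3 : ℕ∞) + B.encard ≤ 3 + 0 := by simpa using h7
      exact (ENat.add_le_add_iff_left (by simp)).1 h6
    exact encard_eq_zero.1 (le_antisymm h9 (by simp))
  subst hB0
  have key : ∀ {a b c : PP F}, a ∈ N.E → b ∈ N.E → c ∈ N.E → a ≠ b → a ≠ c → b ≠ c →
      (N.Indep {a, b, c} ↔ LinearIndependent F ![a.rep, b.rep, c.rep]) := by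
    intro a b c ha hb hc hab hac hbc
    rw [hBI _ (sub3 ha hb hc), union_empty, unital_indep,
      linIndepOn_triple (fun P : PP F => P.rep) a b c hab hac hbc]
    exact ⟨fun h => h.2, fun h => ⟨(sub3 ha hb hc).trans hNE, h⟩⟩
  have hxyz : LinearIndependent F ![x.rep, y.rep, z.rep] := (key hx hy hz hxy hxz hyz).1 h1
  have h2' : ¬ LinearIndependent F ![x.rep, y.rep, p.rep] := fun h => h2 ((key hx hy hp hxy hxp hyp).2 h)
  have h3' : ¬ LinearIndependent F ![y.rep, z.rep, r.rep] := fun h => h3 ((key hy hz hr hyz hyr hzr).2 h)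
  have h4' : ¬ LinearIndependent F ![x.rep, z.rep, t.rep] := fun h => h4 ((key hx hz ht hxz hxt hzt).2 h)
  have h5' : ¬ LinearIndependent F ![p.rep, r.rep, t.rep] := fun h => h5 ((key hp hr ht hpr hpt hrt).2 h)
  obtain ⟨a, b, hab⟩ := mem_span_pair' (pair_indep hxy) h2'
  obtain ⟨c, d, hcd⟩ := mem_span_pair' (pair_indep hyz) h3'
  obtain ⟨f, e, hfe⟩ := mem_span_pair' (pair_indep hxz) h4'
  obtain ⟨ha0, hb0⟩ := coeff_ne (Ne.symm hxp) (Ne.symm hyp) hab
  obtain ⟨hc0, hd0⟩ := coeff_ne (Ne.symm hyr) (Ne.symm hzr) hcd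
  obtain ⟨hf0, he0⟩ := coeff_ne (Ne.symm hxt) (Ne.symm hzt) hfe
  have hfe' : t.rep = e • z.rep + f • x.rep := by rw [hfe, add_comm]
  have hdet : a * c * e + b * d * f = 0 := by
    by_contra hne
    apply h5'
    rw [Fintype.linearIndependent_iff]
    intro g hg
    rw [Fin.sum_univ_three] at hg
    simp only [Matrix.cons_val_zero, Matrix.cons_val_one, Matrix.cons_val] at hg
    rw [hab, hcd, hfe'] at hg
    have h6 := Fintype.linearIndependent_iff.1 hxyz
      ![g 0 * a + g 2 * f, g 0 * b + g 1 * c, g 1 * d + g 2 * e] (by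
        rw [Fin.sum_univ_three]
        simp only [Matrix.cons_val_zero, Matrix.cons_val_one, Matrix.cons_val]
        rw [← hg]
        ext i
        simp only [Pi.add_apply, Pi.smul_apply, smul_eq_mul]
        ring)
    have e1 : g 0 * a + g 2 * f = 0 := h6 0
    have e2 : g 0 * b + g 1 * c = 0 := h6 1
    have e3 : g 1 * d + g 2 * e = 0 := h6 2
    have k0 : g 0 * (a * c * e + b * d * f) = 0 := by
      linear_combination c * e * e1 + d * f * e2 - c * f * e3
    have g0 : g 0 = 0 := by
      rcases mul_eq_zero.1 k0 with h | h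
      · exact h
      · exact absurd h hne
    have g1 : g 1 = 0 := by
      rw [g0, zero_mul, zero_add] at e2
      rcases mul_eq_zero.1 e2 with h | h
      · exact h
      · exact absurd h hc0
    have g2 : g 2 = 0 := by
      rw [g0, zero_mul, zero_add] at e1
      rcases mul_eq_zero.1 e1 with h | h
      · exact h
      · exact absurd h hf0
    intro i; fin_cases i
    · exact g0
    · exact g1
    · exact g2
  have ip : herm s p.rep p.rep = 0 := hNE hp
  have ir : herm s r.rep r.rep = 0 := hNE hr
  have it : herm s t.rep t.rep = 0 := hNE ht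
  rw [hab] at ip
  rw [hcd] at ir
  rw [hfe'] at it
  exact no_onan s hs x.rep y.rep z.rep hxyz (hNE hx) (hNE hy) (hNE hz) a b c d e f ha0 hc0 he0
    ip ir it hdet

end

/-- Every block contains a tangential block as a minor. -/
lemma exists_tangential {α F : Type} [Field F] (k : ℕ) (M : Matroid α) (hM : IsBlock F k M) :
    ∃ N : Matroid α, N.IsMinor M ∧ IsTangentialBlock F k N := by
  classical
  have hP : ∃ n : ℕ, ∃ N : Matroid α, N.IsMinor M ∧ IsBlock F k N ∧ N.E.ncard = n :=
    ⟨_, M, Matroid.IsMinor.refl, hM, rfl⟩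
  obtain ⟨N, hN1, hN2, hN3⟩ := Nat.find_spec hP
  refine ⟨N, hN1, hN2, ?_⟩
  intro N' hN' hblock
  have h1 : N'.E.ncard < N.E.ncard := Set.ncard_lt_ncard hN'.ssubset hN2.1.1
  have h2 := Nat.find_min' hP (m := N'.E.ncard) ⟨N', hN'.isMinor.trans hN1, hblock, rfl⟩
  omega

/-- Main theorem. -/
theorem unital_counterexample (F : Type) [Field F] [Fintype F] (q : ℕ)
    (hq : Fintype.card F = q ^ 2) :
    ∃ (α : Type) (M : Matroid α), IsTangentialBlock F 1 M ∧
      (∀ N : Matroid α, N.IsMinor M → ¬ IsUniformLine (Fintype.card F + 1) N) ∧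
      (∀ N : Matroid α, N.IsMinor M → ¬ IsCycleMatroidK4 N) := by
  classical
  obtain ⟨s, hs1, hs⟩ := exists_involution q hq
  have hnorm := norm_surj q hq s hs1
  have hq1 : 1 < q := by
    have h1 : 1 < Fintype.card F := Fintype.one_lt_card
    rw [hq] at h1
    by_contra hle
    have : q ≤ 1 := by omega
    interval_cases q <;> simp at h1
  -- the involution is not the identity
  have hne : ∃ x, s x ≠ x := by
    by_contra hcon
    push Not at hcon
    obtain ⟨g, hg⟩ := IsCyclic.exists_generator (α := Fˣ)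
    have hord : orderOf g = q ^ 2 - 1 := by
      rw [orderOf_eq_card_of_forall_mem_zpowers hg, Nat.card_eq_fintype_card, Fintype.card_units, hq]
    have h1 : (g : F) ^ q = g := by rw [← hs1]; exact hcon _
    have h2 : g ^ (q - 1) = 1 := by
      ext
      have h3 : (g : F) ^ (q - 1) * g = 1 * g := by
        rw [← pow_succ, Nat.sub_add_cancel hq1.le, one_mul]; exact h1
      simpa using mul_right_cancel₀ g.ne_zero h3
    have h3 := orderOf_dvd_of_pow_eq_one h2
    rw [hord] at h3
    have h4 := Nat.le_of_dvd (by omega) h3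
    have h5 : q < q ^ 2 := by nlinarith
    omega
  have htr : ∃ t, t + s t ≠ 0 := by
    by_contra hcon
    push Not at hcon
    obtain ⟨x, hx⟩ := hne
    have h1 := hcon 1
    rw [map_one] at h1
    have h2 := hcon x
    apply hx
    linear_combination h2 - x * h1
  have hblock := unital_block s hs hnorm hne
  obtain ⟨N, hN1, hN2⟩ := exists_tangential 1 (unital s) hblock
  exact ⟨PP F, N, hN2, fun N' hN' => unital_no_line s hs htr N' (hN'.trans hN1),
    fun N' hN' => unital_no_K4 s hs N' (hN'.trans hN1)⟩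

end Pool.Agent.Helper27
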